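import Mathlib

set_option autoImplicit false

namespace Pool.Agent.Results.MP_714461_an.NowhereGateaux

open Filter Topology

/-- `φ` is Gâteaux differentiable at `x` -/
def GateauxAt {X Y : Type} [NormedAddCommGroup X] [NormedSpace ℝ X] [NormedAddCommGroup Y]
    [NormedSpace ℝ Y] (φ : X → Y) (x : X) : Prop :=
  ∃ T : X →L[ℝ] Y, ∀ h, Tendsto (fun t : ℝ => t⁻¹ • (φ (x + t • h) - φ x)) (𝓝[≠] 0) (𝓝 (T h))

noncomputable abbrev H := lp (fun _ : ℝ => ℝ) 2

noncomputable def ab (x : H) : H := ⟨fun i => |x i|, (lp.memℓp x).norm⟩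

theorem ab_apply (x : H) (i : ℝ) : ab x i = |x i| := rfl

theorem ab_lip : LipschitzWith 1 ab := LipschitzWith.of_dist_le_mul fun x y => by
  rw [dist_eq_norm, dist_eq_norm, NNReal.coe_one, one_mul]
  exact lp.norm_mono (by norm_num) fun i => abs_abs_sub_abs_le_abs_sub (x i) (y i)

noncomputable def φ : H ≃ H where
  toFun x := x + (1 / 2 : ℝ) • ab x
  invFun x := (4 / 3 : ℝ) • x - (2 / 3 : ℝ) • ab x
  left_inv x := by
    refine lp.ext (funext fun i => ?_)
    change 4 / 3 * (x i + 1 / 2 * |x i|) - 2 / 3 * |(x i + 1 / 2 * |x i|)| = x i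
    rcases abs_cases (x i) with h | h <;> rcases abs_cases (x i + 1 / 2 * |x i|) with g | g <;>
      linarith [h.1, h.2, g.1, g.2]
  right_inv x := by
    refine lp.ext (funext fun i => ?_)
    change 4 / 3 * x i - 2 / 3 * |x i| + 1 / 2 * |(4 / 3 * x i - 2 / 3 * |x i|)| = x i
    rcases abs_cases (x i) with h | h <;>
      rcases abs_cases (4 / 3 * x i - 2 / 3 * |x i|) with g | g <;> linarith [h.1, h.2, g.1, g.2]

theorem zero_coord (x : H) : ∃ i, x i = 0 := by
  by_contra h
  push Not at h
  have := ((lp.memℓp x).summable (by norm_num)).countable_support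
  refine Set.not_countable_univ (this.mono fun i _ => ?_)
  simpa using h i

/-- A Lipschitz homeomorphism of a nonseparable Hilbert space (reflexive and uniformly convex)
onto itself that is Gâteaux differentiable at no point. -/
theorem result :
    ∃ (X : Type) (_ : NormedAddCommGroup X) (_ : InnerProductSpace ℝ X) (_ : CompleteSpace X)
      (φ : X ≃ X), ¬ TopologicalSpace.SeparableSpace X ∧ UniformConvexSpace X ∧
      Function.Surjective (NormedSpace.inclusionInDoubleDual ℝ X) ∧
      (∃ K, LipschitzWith K φ) ∧ (∃ K, LipschitzWith K φ.symm) ∧ ∀ x, ¬ GateauxAt φ x := by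
  refine ⟨H, inferInstance, inferInstance, inferInstance, φ, fun hs => ?_, inferInstance, ?_,
    ⟨_, LipschitzWith.id.add ((lipschitzWith_smul (1 / 2 : ℝ)).comp ab_lip)⟩,
    ⟨_, (lipschitzWith_smul (4 / 3 : ℝ)).sub ((lipschitzWith_smul (2 / 3 : ℝ)).comp ab_lip)⟩, ?_⟩
  · have : Pairwise (Function.onFun Disjoint fun i : ℝ => Metric.ball (lp.single 2 i 1 : H) (1 / 2)) := by
      intro i j hij
      refine Metric.ball_disjoint_ball ?_
      have := lp.norm_apply_le_norm (by norm_num) (lp.single 2 i 1 - lp.single 2 j 1 : H) i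
      rw [lp.coeFn_sub, Pi.sub_apply, lp.single_apply_self, lp.single_apply_ne _ _ _ hij] at this
      rw [dist_eq_norm]
      norm_num at this ⊢
      exact this
    exact not_countable (this.countable_of_isOpen_disjoint (fun _ => Metric.isOpen_ball)
      fun _ => Metric.nonempty_ball.mpr (by norm_num))
  · intro ψ
    let e := InnerProductSpace.toDual ℝ H
    let f : H →L[ℝ] ℝ := ψ ∘L innerSL ℝ
    refine ⟨e.symm f, ContinuousLinearMap.ext fun g => ?_⟩
    obtain ⟨y, rfl⟩ := e.surjective g
    change inner ℝ y (e.symm f) = f y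
    rw [real_inner_comm, InnerProductSpace.toDual_symm_apply]
  · rintro x ⟨T, hT⟩
    obtain ⟨i, hi⟩ := zero_coord x
    have h := ((lp.evalCLM ℝ (fun _ : ℝ => ℝ) 2 i).continuous.tendsto _).comp (hT (lp.single 2 i 1))
    have e : ∀ t : ℝ, (lp.evalCLM ℝ (fun _ : ℝ => ℝ) 2 i ∘
        fun t : ℝ => t⁻¹ • (φ (x + t • lp.single 2 i 1) - φ x)) t = t⁻¹ * (t + 1 / 2 * |t|) := by
      intro t
      change t⁻¹ * (x i + t * (lp.single 2 i 1 : H) i + 1 / 2 * |x i + t * (lp.single 2 i 1 : H) i| -
        (x i + 1 / 2 * |x i|)) = _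
      rw [lp.single_apply_self, hi]; simp
    rw [funext e] at h
    have h1 := tendsto_nhds_unique (h.mono_left (nhdsGT_le_nhdsNE 0))
      (tendsto_const_nhds.congr' (f₁ := fun _ => (3 / 2 : ℝ)) (by
        filter_upwards [self_mem_nhdsWithin] with t ht
        have : (0 : ℝ) < t := ht
        rw [abs_of_pos this]; field_simp; norm_num))
    have h2 := tendsto_nhds_unique (h.mono_left (nhdsLT_le_nhdsNE 0))
      (tendsto_const_nhds.congr' (f₁ := fun _ => (1 / 2 : ℝ)) (by
        filter_upwards [self_mem_nhdsWithin] with t ht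
        have : t < 0 := ht
        have := this.ne
        rw [abs_of_neg ht]; field_simp; norm_num))
    linarith

end Pool.Agent.Results.MP_714461_an.NowhereGateaux
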